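import Pool.Agent.MP_8d021f_pr.Defs
import Pool.Agent.MP_8d021f_pr.Mg.Final

open Filter Asymptotics Pool.Agent.MP_8d021f_pr

/-- For every `ε > 0` there is an isomorphism-closed, monotone increasing property whose
edge-minimal members have maximum degree at most `3`, whose hitting time is `Θ(n)` a.a.s., and for
which Builder has a successful `(t, b)`-strategy with `t = Θ(n)`, `b = o(t / log n)`, `b ≤ n ^ ε`. -/
theorem Pool.Agent.Results.MP_8d021f_pr.LogTrees.result (ε : ℝ) (hε : 0 < ε) :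
    ∃ P : ∀ n : ℕ, Set (SimpleGraph (Fin n)),
      (∀ n (G H : SimpleGraph (Fin n)), Nonempty (G ≃g H) → G ∈ P n → H ∈ P n) ∧
      (∀ n (G H : SimpleGraph (Fin n)), G ≤ H → G ∈ P n → H ∈ P n) ∧
      (∀ n (G : SimpleGraph (Fin n)), Minimal (fun H => H ∈ P n) G →
        ∀ v, (G.neighborSet v).ncard ≤ 3) ∧
      (∃ c C : ℝ, 0 < c ∧ AAS fun n => {σ | ∃ h : ℕ, IsLeast {s | graphAt σ s ∈ P n} h ∧
        c * n ≤ h ∧ (h : ℝ) ≤ C * n}) ∧
      ∃ (t b : ℕ → ℕ) (S : ∀ n : ℕ, List (Edge n) → Prop),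
        (∀ n, t n ≤ n.choose 2) ∧
        (fun n => (t n : ℝ)) =Θ[atTop] (fun n => (n : ℝ)) ∧
        (∀ n σ, (boughtIdx (S n) σ (t n)).ncard ≤ b n) ∧
        AAS (fun n => {σ | boughtGraph (S n) σ (t n) ∈ P n}) ∧
        (fun n => (b n : ℝ)) =o[atTop] (fun n => (t n : ℝ) / Real.log n) ∧
        ∀ᶠ n in atTop, (b n : ℝ) ≤ (n : ℝ) ^ ε := by
  classical
  obtain ⟨K, hK, hKε⟩ : ∃ K : ℕ, 2 ≤ K ∧ 1 ≤ ε * K := by
    obtain ⟨K, hK⟩ := exists_nat_ge (1 / ε)
    refine ⟨K + 2, by omega, ?_⟩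
    rw [div_le_iff₀ hε] at hK
    push_cast
    nlinarith
  let L : ℕ → ℕ := fun n => Nat.log (3840 ^ K) n
  let good : ℕ → Prop := fun n => 2 ≤ L n ∧ sz (L n) 1 ≤ n
  have hgood : ∀ᶠ n in atTop, good n := by
    filter_upwards [eventually_good K hK] with n ⟨h1, h2, _⟩
    exact ⟨h1, by simp only [L]; nlinarith⟩
  refine ⟨fun n => HasBT (L n), ?_, fun n G H h hG => hasBT_mono h hG,
    fun n G hG v => hasBT_minimal_degree hG v,
    ⟨_, 1, by positivity, aas_hitting K hK⟩, fun n => n / 4, fun n => L n * sz (L n) 1,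
    fun n l => good n ∧ strat n (L n) l, quarter_le_choose, quarter_theta, ?_, ?_, ?_, ?_⟩
  · rintro n G H ⟨φ⟩ ⟨S, h1, h2⟩
    exact ⟨_, by rw [Finset.card_map, h1], h2.map φ⟩
  · intro n σ
    by_cases h : good n
    · simp only [h, true_and]
      exact strat_budget n _ _ (quarter_le_choose n) h.1 h.2 σ
    · simp [h, boughtIdx]
  · refine (aas_success K hK).congr' ?_
    filter_upwards [hgood] with n h
    simp only [h, true_and]
    rfl
  · exact budget_littleO _ fun n hn => sq_le_of_pow_le hK (budget_pow K n hn)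
  · filter_upwards [eventually_ge_atTop 1] with n hn
    have h1 : ((L n * sz (L n) 1 : ℕ) : ℝ) ^ K ≤ n := by exact_mod_cast budget_pow K n (by omega)
    have hn1 : (1 : ℝ) ≤ n := by exact_mod_cast hn
    have h2 : (n : ℝ) ≤ ((n : ℝ) ^ ε) ^ K := by
      rw [← Real.rpow_natCast, ← Real.rpow_mul (by positivity)]
      simpa using Real.rpow_le_rpow_of_exponent_le hn1 hKε
    exact le_of_pow_le_pow_left₀ (by omega) (by positivity) (h1.trans h2)
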